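import Pool.Agent.GT.StmtsE

set_option autoImplicit false

namespace Pool.Agent.GT.OF.H52

open Polynomial Pool.Agent.NJ Pool.Agent.GT.D

noncomputable section

theorem sq_unit (q : ℕ) [hq : Fact q.Prime] (hq2 : q ≠ 2) (u a : ℤ) (hu : ¬ (q : ℤ) ∣ u)
    (h : (q : ℤ) ∣ a ^ 2 - u) : ∃ z : ℤ_[q], z ^ 2 = (u : ℤ_[q]) := by
  have hqp : Prime (q : ℤ) := Nat.prime_iff_prime_int.1 hq.out
  have ha : ¬ (q : ℤ) ∣ a := by
    intro h1
    apply hu
    have h2 : (q : ℤ) ∣ a ^ 2 := dvd_pow h1 two_ne_zero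
    have h3 := dvd_sub h2 h
    rwa [sub_sub_cancel] at h3
  have h2a : ¬ (q : ℤ) ∣ 2 * a := by
    intro h1
    rcases hqp.dvd_or_dvd h1 with h2 | h2
    · have h3 : q ∣ 2 := by exact_mod_cast h2
      have h4 := (Nat.prime_dvd_prime_iff_eq hq.out Nat.prime_two).1 h3
      exact hq2 h4
    · exact ha h2
  have hn1 : ‖((2 * a : ℤ) : ℤ_[q])‖ = 1 := by
    refine le_antisymm (PadicInt.norm_le_one _) (not_lt.1 fun h1 => h2a ?_)
    exact (PadicInt.norm_int_lt_one_iff_dvd _).1 h1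
  have hn2 : ‖((a ^ 2 - u : ℤ) : ℤ_[q])‖ < 1 := (PadicInt.norm_int_lt_one_iff_dvd _).2 h
  let F : Polynomial ℤ := X ^ 2 - C u
  have hF : ∀ z : ℤ_[q], F.aeval z = z ^ 2 - (u : ℤ_[q]) := by
    intro z
    simp [F]
  have hF' : ∀ z : ℤ_[q], F.derivative.aeval z = 2 * z := by
    intro z
    simp [F]
    left
    exact map_ofNat (aeval z) 2
  obtain ⟨z, hz, -⟩ := hensels_lemma (p := q) (R := ℤ) (F := F) (a := (a : ℤ_[q])) (by
    rw [hF, hF']
    have e1 : (2 * (a : ℤ_[q])) = ((2 * a : ℤ) : ℤ_[q]) := by push_cast; ring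
    have e2 : (a : ℤ_[q]) ^ 2 - (u : ℤ_[q]) = ((a ^ 2 - u : ℤ) : ℤ_[q]) := by push_cast; ring
    rw [e1, e2, hn1, one_pow]
    exact hn2)
  refine ⟨z, ?_⟩
  rw [hF] at hz
  exact sub_eq_zero.1 hz

theorem e_sqa : SqaStmt := by
  intro q hq n hq2 hn hv hu
  have hqp : Prime (q : ℤ) := Nat.prime_iff_prime_int.1 hq.out
  have hdvd : (q : ℤ) ^ padicValInt q n ∣ n := padicValInt_dvd n
  have hun : n = (q : ℤ) ^ padicValInt q n * un q n := by
    unfold un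
    rw [Int.mul_ediv_cancel' hdvd]
  have hev : Even (padicValInt q n) := by
    have h1 : ((padicValInt q n : ℕ) : ZMod 2) = 0 := hv
    exact (ZMod.natCast_eq_zero_iff_even).1 h1
  have hsq : IsSquare ((un q n : ℤ) : ZMod q) := by
    by_contra h
    unfold ul at hu
    rw [if_neg h] at hu
    exact one_ne_zero hu
  have hnd : ¬ (q : ℤ) ∣ un q n := by
    intro h
    have h1 : (q : ℤ) ^ (padicValInt q n + 1) ∣ n := by
      rw [pow_succ]
      conv_rhs => rw [hun]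
      exact mul_dvd_mul_left _ h
    rw [padicValInt_dvd_iff] at h1
    rcases h1 with h1 | h1
    · exact hn h1
    · omega
  obtain ⟨r, hr⟩ := hsq
  obtain ⟨a, ha⟩ := ZMod.intCast_surjective r
  have hda : (q : ℤ) ∣ a ^ 2 - un q n := by
    rw [← ZMod.intCast_zmod_eq_zero_iff_dvd]
    push_cast
    rw [ha, hr]
    ring
  obtain ⟨z, hz⟩ := sq_unit q hq2 (un q n) a hnd hda
  obtain ⟨k, hk⟩ := hev
  refine ⟨(q : ℚ_[q]) ^ k * (z : ℚ_[q]), ?_⟩
  have hz' : (z : ℚ_[q]) ^ 2 = ((un q n : ℤ) : ℚ_[q]) := by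
    have := congrArg (fun x : ℤ_[q] => (x : ℚ_[q])) hz
    simpa using this
  have hn' : (n : ℚ_[q]) = (q : ℚ_[q]) ^ padicValInt q n * ((un q n : ℤ) : ℚ_[q]) := by
    conv_lhs => rw [hun]
    push_cast
    ring
  rw [hn', ← hz', hk, pow_add]
  ring

end

end Pool.Agent.GT.OF.H52
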