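import Pool.Agent.GT.StmtsF

set_option autoImplicit false

namespace Pool.Agent.GT.F.H52

open Polynomial Pool.Agent.NJ WeierstrassCurve.Affine

noncomputable section

variable {K : Type} [Field K]

/-- the value of the class of a point -/
def uv [DecidableEq K] (W : WeierstrassCurve K) (a b c : K) : W.toAffine.Point → K
  | .zero => 1
  | .some x _ _ => if x = a then (a - b) * (a - c) else x - a

theorem dl_iff [DecidableEq K] (W : WeierstrassCurve K) (e : Fin 3 → K) (i : Fin 3) (c : K)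
    (P : W.toAffine.Point) :
    Dl W e i c P ↔ IsSquare (c * uv W (e i) (e (i + 1)) (e (i + 2)) P) := by
  cases P with
  | zero =>
    show IsSquare c ↔ IsSquare (c * 1)
    rw [mul_one]
  | some x y h =>
    show ((x ≠ e i → IsSquare (c * (x - e i))) ∧
      (x = e i → IsSquare (c * ((e i - e (i + 1)) * (e i - e (i + 2)))))) ↔
      IsSquare (c * (if x = e i then (e i - e (i + 1)) * (e i - e (i + 2)) else x - e i))
    by_cases hx : x = e i
    · rw [if_pos hx]
      exact ⟨fun h => h.2 hx, fun h => ⟨fun h' => absurd hx h', fun _ => h⟩⟩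
    · rw [if_neg hx]
      exact ⟨fun h => h.1 hx, fun h => ⟨fun _ => h, fun h' => absurd h' hx⟩⟩

theorem uv_ne [DecidableEq K] (W : WeierstrassCurve K) {a b c : K} (hab : a ≠ b) (hac : a ≠ c)
    (P : W.toAffine.Point) : uv W a b c P ≠ 0 := by
  cases P with
  | zero => exact one_ne_zero
  | some x y h =>
    show (if x = a then (a - b) * (a - c) else x - a) ≠ 0
    split_ifs with h1
    · exact mul_ne_zero (sub_ne_zero.2 hab) (sub_ne_zero.2 hac)
    · exact sub_ne_zero.2 h1

/-- the square of `2 y + a₁ x + a₃` -/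
theorem sq_eq {W : WeierstrassCurve K} {a b c : K} (hR : Roots W a b c) {x y : K}
    (h : W.toAffine.Equation x y) :
    (2 * y + W.a₁ * x + W.a₃) ^ 2 = 4 * ((x - a) * (x - b) * (x - c)) := by
  rw [WeierstrassCurve.Affine.equation_iff] at h
  obtain ⟨h1, h2, h3⟩ := hR
  rw [WeierstrassCurve.b₂] at h1
  rw [WeierstrassCurve.b₄] at h2
  rw [WeierstrassCurve.b₆] at h3
  linear_combination 4 * h + x ^ 2 * h1 + 2 * x * h2 + h3

/-- the point of order two plus another point -/
theorem tors_add [CharZero K] [DecidableEq K] {W : WeierstrassCurve K} {a b c : K}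
    (hR : Roots W a b c) {y₁ x₂ y₂ : K} (h₁ : W.toAffine.Equation a y₁)
    (h₂ : W.toAffine.Equation x₂ y₂) (hx : x₂ ≠ a) :
    (W.toAffine.addX a x₂ (W.toAffine.slope a x₂ y₁ y₂) - a) * (x₂ - a) = (a - b) * (a - c) := by
  have e1 := sq_eq hR h₁
  have e2 := sq_eq hR h₂
  have e3 : 2 * y₁ + W.a₁ * a + W.a₃ = 0 := by
    have : (2 * y₁ + W.a₁ * a + W.a₃) ^ 2 = 0 := by
      rw [e1]
      ring
    exact pow_eq_zero_iff (two_ne_zero) |>.1 this
  have hx' : x₂ - a ≠ 0 := sub_ne_zero.2 hx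
  rw [WeierstrassCurve.Affine.slope_of_X_ne hx.symm, WeierstrassCurve.Affine.addX]
  set l := (y₁ - y₂) / (a - x₂) with hl
  have hl' : l * (x₂ - a) = y₂ - y₁ := by
    rw [hl, div_mul_eq_mul_div, div_eq_iff (sub_ne_zero.2 hx.symm)]
    ring
  obtain ⟨h1, h2, h3⟩ := hR
  rw [WeierstrassCurve.b₂] at h1
  -- (2 l + a₁) (x₂ - a) = 2 y₂ + a₁ x₂ + a₃
  have e4 : (2 * l + W.a₁) * (x₂ - a) = 2 * y₂ + W.a₁ * x₂ + W.a₃ := by
    linear_combination 2 * hl' - e3
  have e5 : (2 * l + W.a₁) ^ 2 * (x₂ - a) = 4 * ((x₂ - b) * (x₂ - c)) := by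
    have e6 : ((2 * l + W.a₁) ^ 2 * (x₂ - a)) * (x₂ - a) =
        4 * ((x₂ - b) * (x₂ - c)) * (x₂ - a) := by
      linear_combination ((2 * l + W.a₁) * (x₂ - a) + (2 * y₂ + W.a₁ * x₂ + W.a₃)) * e4 + e2
    exact mul_right_cancel₀ hx' e6
  have h4 : (4 : K) ≠ 0 := by norm_num
  apply mul_left_cancel₀ h4
  linear_combination e5 - (x₂ - a) * h1

/-- the general case -/
theorem gen_add [CharZero K] [DecidableEq K] {W : WeierstrassCurve K} {a b c : K}
    (hR : Roots W a b c) {x₁ y₁ x₂ y₂ : K} (h₁ : W.toAffine.Equation x₁ y₁)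
    (h₂ : W.toAffine.Equation x₂ y₂) (hxy : ¬(x₁ = x₂ ∧ y₁ = W.toAffine.negY x₂ y₂)) :
    IsSquare ((x₁ - a) * (x₂ - a) *
      (W.toAffine.addX x₁ x₂ (W.toAffine.slope x₁ x₂ y₁ y₂) - a)) := by
  have e1 := congrArg (Polynomial.eval a)
    (WeierstrassCurve.Affine.addPolynomial_slope h₁ h₂ hxy)
  set l := W.toAffine.slope x₁ x₂ y₁ y₂ with hl
  set x₃ := W.toAffine.addX x₁ x₂ l with hx₃
  rw [WeierstrassCurve.Affine.addPolynomial, WeierstrassCurve.Affine.linePolynomial,
    WeierstrassCurve.Affine.polynomial] at e1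
  simp only [eval_neg, eval_mul, eval_sub, eval_add, eval_pow, eval_X, eval_C] at e1
  obtain ⟨h1, h2, h3⟩ := hR
  rw [WeierstrassCurve.b₂] at h1
  rw [WeierstrassCurve.b₄] at h2
  rw [WeierstrassCurve.b₆] at h3
  refine ⟨(2 * (l * (a - x₁) + y₁) + W.a₁ * a + W.a₃) / 2, ?_⟩
  have h4 : (4 : K) ≠ 0 := by norm_num
  apply mul_left_cancel₀ h4
  have h5 : 4 * ((2 * (l * (a - x₁) + y₁) + W.a₁ * a + W.a₃) / 2 *
      ((2 * (l * (a - x₁) + y₁) + W.a₁ * a + W.a₃) / 2)) =
      (2 * (l * (a - x₁) + y₁) + W.a₁ * a + W.a₃) ^ 2 := by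
    ring
  rw [h5]
  linear_combination -4 * e1 - a ^ 2 * h1 - 2 * a * h2 - h3

theorem class_add [CharZero K] [DecidableEq K] {W : WeierstrassCurve K} {a b c : K}
    (hR : Roots W a b c) (hab : a ≠ b) (hac : a ≠ c) (P Q : W.toAffine.Point) :
    IsSquare (uv W a b c P * uv W a b c Q * uv W a b c (P + Q)) := by
  have hone : uv W a b c 0 = 1 := rfl
  have hsome : ∀ (x y : K) (h : W.toAffine.Nonsingular x y),
      uv W a b c (.some x y h) = if x = a then (a - b) * (a - c) else x - a := fun _ _ _ => rfl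
  -- the case where `P` is the point of order two
  have key : ∀ (y₁ x₂ y₂ : K) (h₁ : W.toAffine.Nonsingular a y₁)
      (h₂ : W.toAffine.Nonsingular x₂ y₂), x₂ ≠ a →
      uv W a b c (.some a y₁ h₁ + .some x₂ y₂ h₂) * (x₂ - a) = (a - b) * (a - c) := by
    intro y₁ x₂ y₂ h₁ h₂ hx
    rw [WeierstrassCurve.Affine.Point.add_of_X_ne hx.symm, hsome]
    have h3 := tors_add hR h₁.1 h₂.1 hx
    have h4 : W.toAffine.addX a x₂ (W.toAffine.slope a x₂ y₁ y₂) ≠ a := by
      intro h
      rw [h, sub_self, zero_mul] at h3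
      exact mul_ne_zero (sub_ne_zero.2 hab) (sub_ne_zero.2 hac) h3.symm
    rw [if_neg h4]
    exact h3
  cases P with
  | zero =>
    rw [← WeierstrassCurve.Affine.Point.zero_def, zero_add, hone, one_mul]
    exact ⟨_, rfl⟩
  | some x₁ y₁ h₁ =>
    cases Q with
    | zero =>
      rw [← WeierstrassCurve.Affine.Point.zero_def, add_zero, hone, mul_one]
      exact ⟨_, rfl⟩
    | some x₂ y₂ h₂ =>
      by_cases hxy : x₁ = x₂ ∧ y₁ = W.toAffine.negY x₂ y₂
      · rw [WeierstrassCurve.Affine.Point.add_of_Y_eq hxy.1 hxy.2, hone, mul_one, hsome, hsome,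
          hxy.1]
        exact ⟨_, rfl⟩
      · by_cases hx1 : x₁ = a
        · by_cases hx2 : x₂ = a
          · exfalso
            apply hxy
            refine ⟨hx1.trans hx2.symm, ?_⟩
            have e1 := sq_eq hR h₁.1
            have e2 := sq_eq hR h₂.1
            rw [hx1, sub_self, zero_mul, zero_mul, mul_zero] at e1
            rw [hx2, sub_self, zero_mul, zero_mul, mul_zero] at e2
            have e3 := pow_eq_zero_iff (two_ne_zero) |>.1 e1
            have e4 := pow_eq_zero_iff (two_ne_zero) |>.1 e2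
            rw [WeierstrassCurve.Affine.negY, hx2]
            have h2 : (2 : K) ≠ 0 := two_ne_zero
            apply mul_left_cancel₀ h2
            linear_combination e3 + e4
          · subst hx1
            have h3 := key y₁ x₂ y₂ h₁ h₂ hx2
            rw [hsome, hsome, if_pos rfl, if_neg hx2]
            refine ⟨(x₁ - b) * (x₁ - c), ?_⟩
            linear_combination (x₁ - b) * (x₁ - c) * h3
        · by_cases hx2 : x₂ = a
          · subst hx2
            have h3 := key y₂ x₁ y₁ h₂ h₁ hx1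
            rw [add_comm] at h3
            rw [hsome, hsome, if_pos rfl, if_neg hx1]
            refine ⟨(x₂ - b) * (x₂ - c), ?_⟩
            linear_combination (x₂ - b) * (x₂ - c) * h3
          · have hadd := WeierstrassCurve.Affine.Point.add_some hxy (h₁ := h₁) (h₂ := h₂)
            by_cases hx3 : W.toAffine.addX x₁ x₂ (W.toAffine.slope x₁ x₂ y₁ y₂) = a
            · have h4 : (WeierstrassCurve.Affine.Point.some _ _ h₁ + .some _ _ h₂) +
                  -(.some _ _ h₂) = .some _ _ h₁ := add_neg_cancel_right _ _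
              rw [hadd, WeierstrassCurve.Affine.Point.neg_some] at h4
              have h5 : ∀ (x y : K) (h : W.toAffine.Nonsingular x y), x = a →
                  uv W a b c (.some x y h + .some _ _ ((W.toAffine.nonsingular_neg _ _).2 h₂)) *
                    (x₂ - a) = (a - b) * (a - c) := by
                intro x y h hx
                subst hx
                exact key y x₂ _ h _ hx2
              have h6 := h5 _ _ (WeierstrassCurve.Affine.nonsingular_add h₁ h₂ hxy) hx3
              rw [h4] at h6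
              rw [hadd, hsome, hsome, hsome, if_neg hx1, if_neg hx2, if_pos hx3]
              rw [hsome, if_neg hx1] at h6
              refine ⟨(a - b) * (a - c), ?_⟩
              linear_combination (a - b) * (a - c) * h6
            · rw [hadd, hsome, hsome, hsome, if_neg hx1, if_neg hx2, if_neg hx3]
              exact gen_add hR h₁.1 h₂.1 hxy

theorem roots_rot {K : Type} [Field K] {W : WeierstrassCurve K} {e : Fin 3 → K}
    (h : Roots W (e 0) (e 1) (e 2)) (i : Fin 3) : Roots W (e i) (e (i + 1)) (e (i + 2)) := by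
  obtain ⟨h1, h2, h3⟩ := h
  fin_cases i
  · exact ⟨h1, h2, h3⟩
  · refine ⟨?_, ?_, ?_⟩
    · show W.b₂ = -4 * (e 1 + e 2 + e 0)
      rw [h1]
      ring
    · show W.b₄ = 2 * (e 1 * e 2 + e 1 * e 0 + e 2 * e 0)
      rw [h2]
      ring
    · show W.b₆ = -4 * (e 1 * e 2 * e 0)
      rw [h3]
      ring
  · refine ⟨?_, ?_, ?_⟩
    · show W.b₂ = -4 * (e 2 + e 0 + e 1)
      rw [h1]
      ring
    · show W.b₄ = 2 * (e 2 * e 0 + e 2 * e 1 + e 0 * e 1)
      rw [h2]
      ring
    · show W.b₆ = -4 * (e 2 * e 0 * e 1)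
      rw [h3]
      ring

theorem f_add : AddStmt := by
  intro K _ _ _ W e hR he i c d P Q hc hd hP hQ
  have h1 : i ≠ i + 1 := by fin_cases i <;> decide
  have h2 : i ≠ i + 2 := by fin_cases i <;> decide
  have hab : e i ≠ e (i + 1) := fun h => h1 (he h)
  have hac : e i ≠ e (i + 2) := fun h => h2 (he h)
  rw [dl_iff] at hP hQ ⊢
  obtain ⟨r, hr⟩ := hP
  obtain ⟨s, hs⟩ := hQ
  obtain ⟨t, ht⟩ := class_add (roots_rot hR i) hab hac P Q
  have hu := uv_ne W hab hac P
  have hv := uv_ne W hab hac Q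
  set u := uv W (e i) (e (i + 1)) (e (i + 2)) P
  set v := uv W (e i) (e (i + 1)) (e (i + 2)) Q
  set w := uv W (e i) (e (i + 1)) (e (i + 2)) (P + Q)
  refine ⟨r * s * t / (u * v), ?_⟩
  field_simp
  linear_combination (d * v) * (u * v * w) * hr + r * r * (u * v * w) * hs + r * r * (s * s) * ht

end

end Pool.Agent.GT.F.H52
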